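import Pool.Agent.Helper46.RO.Base

/-!
# The distance of families is an ultrametric on ends, and the action is by similarities
-/

namespace Pool.Agent.Helper33.RO

open Pool.Agent.Helper46.RO
open scoped NNReal

universe u

section

variable {L : Type u} [Group L]

lemma lev_comm (C C' : ℝ → Set L) : lev C C' = lev C' C := by
  unfold lev
  congr 1
  ext s
  exact eq_comm

lemma distF_self (C : ℝ → Set L) : distF C C = 0 := by
  unfold distF
  rw [if_pos rfl]

lemma distF_ne {C C' : ℝ → Set L} (h : C ≠ C') :
    distF C C' = Real.toNNReal (Real.exp (-(lev C C'))) := by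
  unfold distF
  rw [if_neg h]

lemma distF_comm (C C' : ℝ → Set L) : distF C C' = distF C' C := by
  by_cases h : C = C'
  · rw [h]
  · rw [distF_ne h, distF_ne (Ne.symm h), lev_comm]

lemma distF_eq_zero (C C' : ℝ → Set L) : distF C C' = 0 ↔ C = C' := by
  constructor
  · intro h
    by_contra hne
    rw [distF_ne hne, Real.toNNReal_eq_zero] at h
    exact absurd (Real.exp_pos (-(lev C C'))) (not_lt.2 h)
  · rintro rfl
    exact distF_self C

lemma actF_eq_iff (χ : L → ℝ) (g : L) (C C' : ℝ → Set L) (s : ℝ) :
    actF χ g C s = actF χ g C' s ↔ C (s - χ g) = C' (s - χ g) := by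
  unfold actF
  constructor
  · intro h
    ext k
    have h1 := Set.ext_iff.1 h (g * k)
    simp only [Set.mem_ofPred_eq, inv_mul_cancel_left] at h1
    exact h1
  · intro h
    rw [h]

lemma actF_inj (χ : L → ℝ) (g : L) {C C' : ℝ → Set L} (h : actF χ g C = actF χ g C') :
    C = C' := by
  funext s
  have h1 := (actF_eq_iff χ g C C' (s + χ g)).1 (congrFun h _)
  rwa [add_sub_cancel_right] at h1

end

theorem E4 (h3 : GoalE3.{u}) : GoalE4.{u} := by
  intro L _ X χ hX hχ
  refine ⟨distF_eq_zero, distF_comm, ?_, ?_⟩
  · intro C C' C'' hC hC' hC''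
    by_cases h1 : C = C'
    · rw [h1]
      exact le_max_right _ _
    by_cases h2 : C' = C''
    · rw [h2]
      exact le_max_left _ _
    by_cases h4 : C = C''
    · rw [h4, distF_self]
      exact zero_le
    obtain ⟨d1, n1, b1⟩ := h3 L X χ hX hχ C C' hC hC'
    obtain ⟨d2, n2, b2⟩ := h3 L X χ hX hχ C' C'' hC' hC''
    obtain ⟨d4, n4, b4⟩ := h3 L X χ hX hχ C C'' hC hC''
    have key : min (lev C C') (lev C' C'') ≤ lev C C'' := by
      by_contra hcon
      rw [not_le] at hcon
      obtain ⟨s, hs1, hs2⟩ := exists_between hcon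
      obtain ⟨a, ha, hsa⟩ := exists_lt_of_lt_csSup n1 (lt_of_lt_of_le hs2 (min_le_left _ _))
      obtain ⟨b, hb, hsb⟩ := exists_lt_of_lt_csSup n2 (lt_of_lt_of_le hs2 (min_le_right _ _))
      have e1 : C s = C' s := d1 s a hsa.le ha
      have e2 : C' s = C'' s := d2 s b hsb.le hb
      have e3 : s ≤ lev C C'' := le_csSup (b4 h4) (e1.trans e2)
      exact absurd hs1 (not_lt.2 e3)
    rw [distF_ne h1, distF_ne h2, distF_ne h4]
    rcases le_total (lev C C') (lev C' C'') with h | h
    · rw [min_eq_left h] at key
      refine le_trans ?_ (le_max_left _ _)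
      exact Real.toNNReal_le_toNNReal (Real.exp_le_exp.2 (neg_le_neg key))
    · rw [min_eq_right h] at key
      refine le_trans ?_ (le_max_right _ _)
      exact Real.toNNReal_le_toNNReal (Real.exp_le_exp.2 (neg_le_neg key))
  · intro g C C' hC hC'
    by_cases h1 : C = C'
    · rw [h1, distF_self, distF_self, mul_zero]
    obtain ⟨d1, n1, b1⟩ := h3 L X χ hX hχ C C' hC hC'
    have h2 : actF χ g C ≠ actF χ g C' := fun h => h1 (actF_inj χ g h)
    have hlev : lev (actF χ g C) (actF χ g C') = lev C C' + χ g := by
      have hl : IsLUB {s | C s = C' s} (lev C C') := isLUB_csSup n1 (b1 h1)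
      have hlub : IsLUB {s | actF χ g C s = actF χ g C' s} (lev C C' + χ g) := by
        constructor
        · intro s hs
          have h3 : s - χ g ≤ lev C C' := hl.1 ((actF_eq_iff χ g C C' s).1 hs)
          linarith
        · intro b hb
          have h3 : lev C C' ≤ b - χ g := by
            refine hl.2 fun a ha => ?_
            have h4 : a + χ g ∈ {s | actF χ g C s = actF χ g C' s} := by
              refine (actF_eq_iff χ g C C' (a + χ g)).2 ?_
              rw [add_sub_cancel_right]
              exact ha
            have h5 := hb h4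
            linarith
          linarith
      have hne : {s | actF χ g C s = actF χ g C' s}.Nonempty := by
        obtain ⟨a, ha⟩ := n1
        refine ⟨a + χ g, (actF_eq_iff χ g C C' (a + χ g)).2 ?_⟩
        rw [add_sub_cancel_right]
        exact ha
      exact hlub.csSup_eq hne
    rw [distF_ne h1, distF_ne h2, hlev, ← Real.toNNReal_mul (Real.exp_pos _).le, ← Real.exp_add]
    congr 2
    ring

end Pool.Agent.Helper33.RO
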